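import Mathlib

set_option autoImplicit false

open Polynomial

namespace Pool.Agent.Results.MP_4d6048_al.TwoGroups

/-- The relators `a_i b_j (b_{i+j} a_{i-j})⁻¹`; `Sum.inl i` stands for `a_i` and `Sum.inr j`
for `b_j`. -/
def rels (X : Type) [AddCommGroup X] : Set (FreeGroup (X ⊕ X)) :=
  Set.range fun ij : X × X =>
    FreeGroup.of (Sum.inl ij.1) * FreeGroup.of (Sum.inr ij.2) *
      (FreeGroup.of (Sum.inr (ij.1 + ij.2)) * FreeGroup.of (Sum.inl (ij.1 - ij.2)))⁻¹

/-- The group `π₁(Δ_X) = ⟨a_i, b_j | a_i b_j = b_{i+j} a_{i-j}⟩`. -/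
abbrev G (X : Type) [AddCommGroup X] : Type := PresentedGroup (rels X)

section general

variable {X : Type} [AddCommGroup X] {Γ : Type} [Group Γ] (a b : X → Γ)

/-- the common difference of the `a`'s -/
def al (a : X → Γ) (l : X) : Γ := (a 0)⁻¹ * a l

variable (h : ∀ i j, a i * b j = b (i + j) * a (i - j))

include h

lemma star (i i' m : X) : (a i)⁻¹ * a i' =
    b (m - i) * ((a (i + i - m))⁻¹ * a (i' + i' - m)) * (b (m - i'))⁻¹ := by
  have h1 := h i (m - i)
  have h2 := h i' (m - i')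
  have e1 : i + (m - i) = m := by abel
  have e2 : i' + (m - i') = m := by abel
  have e3 : i - (m - i) = i + i - m := by abel
  have e4 : i' - (m - i') = i' + i' - m := by abel
  rw [e1, e3] at h1
  rw [e2, e4] at h2
  have h3 : a i = b m * a (i + i - m) * (b (m - i))⁻¹ := by rw [← h1]; group
  have h4 : a i' = b m * a (i' + i' - m) * (b (m - i'))⁻¹ := by rw [← h2]; group
  rw [h3, h4]; group

lemma al_indep (r : ℕ) : ∀ l : X, (2 ^ r : ℕ) • l = 0 → ∀ i, (a i)⁻¹ * a (i + l) = al a l := by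
  induction r with
  | zero =>
    intro l hl i
    have : l = 0 := by simpa using hl
    rw [this, al, add_zero]; group
  | succ r ih =>
    intro l hl i
    have h2 : (2 ^ r : ℕ) • (l + l) = 0 := by
      rw [← hl, pow_succ, mul_smul, two_nsmul]
    have key : ∀ i, (a i)⁻¹ * a (i + l) = b 0 * al a (l + l) * (b (-l))⁻¹ := by
      intro i
      rw [star a b h i (i + l) i]
      have e1 : i + i - i = i := by abel
      have e2 : i + l + (i + l) - i = i + (l + l) := by abel
      have e3 : i - i = 0 := by abel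
      have e4 : i - (i + l) = -l := by abel
      rw [e1, e2, e3, e4, ih _ h2]
    rw [key i, al]
    have := key 0
    rw [zero_add] at this
    exact this.symm

end general

section commute

variable {X : Type} [AddCommGroup X] {Γ : Type} [Group Γ] (A B : Γ) (α : X → Γ)

/-- the conjugate `B^k (A α(z) A⁻¹) B^{-k}` -/
def yy (A B : Γ) (α : X → Γ) (k : ℤ) (z : X) : Γ := B ^ k * (A * α z * A⁻¹) * B ^ (-k)

/-- the conjugate `B^k α(z) B^{-k}` -/
def xx (B : Γ) (α : X → Γ) (k : ℤ) (z : X) : Γ := B ^ k * α z * B ^ (-k)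

/-- the subgroup generated by all `yy m (c • z)` -/
def YS (A B : Γ) (α : X → Γ) (z : X) : Subgroup Γ :=
  Subgroup.closure {g | ∃ m c : ℤ, g = yy A B α m (c • z)}

variable (hadd : ∀ x y, α (x + y) = α x * α y) (hAB : A * B = B * A)
  (hrel : ∀ x, α x = (A * α x * A⁻¹) * (B * ((A * α (-x) * A⁻¹) * α (x + x)) * B⁻¹))

include hadd in
lemma yy_add (k : ℤ) (z w : X) : yy A B α k (z + w) = yy A B α k z * yy A B α k w := by
  rw [yy, yy, yy, hadd, zpow_neg]; group

include hadd in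
lemma al_zero : α 0 = 1 := by
  have := hadd 0 0
  rw [add_zero] at this
  exact (mul_eq_left.1 this.symm)

include hadd in
lemma yy_zero (k : ℤ) : yy A B α k 0 = 1 := by
  rw [yy, al_zero α hadd]; group

include hadd in
lemma xx_add (k : ℤ) (z w : X) : xx B α k (z + w) = xx B α k z * xx B α k w := by
  rw [xx, xx, xx, hadd, zpow_neg]; group

omit [AddCommGroup X] in
lemma conjB (k l : ℤ) (z : X) : B ^ l * yy A B α k z * B ^ (-l) = yy A B α (k + l) z := by
  rw [yy, yy, zpow_neg, zpow_neg, zpow_neg, zpow_add]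
  have : B ^ k * B ^ l = B ^ l * B ^ k := (Commute.refl B).zpow_zpow k l
  rw [this]; group

omit [AddCommGroup X] in
include hAB in
lemma conjA (k : ℤ) (z : X) : A * xx B α k z * A⁻¹ = yy A B α k z := by
  have h1 : A * B ^ k = B ^ k * A := (Commute.zpow_right hAB k)
  rw [xx, yy, zpow_neg]
  calc A * (B ^ k * α z * (B ^ k)⁻¹) * A⁻¹ = (A * B ^ k) * α z * (A * B ^ k)⁻¹ := by group
    _ = (B ^ k * A) * α z * (B ^ k * A)⁻¹ := by rw [h1]
    _ = _ := by group

include hrel in
lemma xx_rel (k : ℤ) (z : X) :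
    xx B α k z = yy A B α k z * yy A B α (k + 1) (-z) * xx B α (k + 1) (z + z) := by
  rw [xx, yy, yy, xx, zpow_neg, zpow_neg, zpow_add_one]
  conv_lhs => rw [hrel z]
  group

include hadd hrel in
lemma xx_rel2 (k : ℤ) (z : X) :
    xx B α k z = yy A B α k z * yy A B α (k + 1) z *
      (yy A B α (k + 2) (-(z + z)) * xx B α (k + 2) (z + z + (z + z))) := by
  rw [xx_rel A B α hrel k z, xx_rel A B α hrel (k + 1) (z + z)]
  have e : yy A B α (k + 1) z = yy A B α (k + 1) (-z) * yy A B α (k + 1) (z + z) := by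
    rw [← yy_add A B α hadd]; congr 1; abel
  rw [e, show k + 1 + 1 = k + 2 by ring]
  group

lemma YS_mono (z : X) (c : ℤ) : YS A B α (c • z) ≤ YS A B α z := by
  rw [YS, Subgroup.closure_le]
  rintro _ ⟨m, d, rfl⟩
  exact Subgroup.subset_closure ⟨m, d * c, by rw [mul_smul]⟩

lemma YS_two (z : X) : YS A B α (z + z) ≤ YS A B α z := by
  have := YS_mono A B α z 2
  rwa [two_zsmul] at this

lemma yy_mem (z : X) (m : ℤ) : yy A B α m z ∈ YS A B α z :=
  Subgroup.subset_closure ⟨m, 1, by rw [one_smul]⟩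

lemma yy_neg_mem (z : X) (m : ℤ) : yy A B α m (-z) ∈ YS A B α z :=
  Subgroup.subset_closure ⟨m, -1, by rw [neg_smul, one_smul]⟩

include hadd hrel in
lemma xx_mem (r : ℕ) : ∀ z : X, (2 ^ r : ℕ) • z = 0 → ∀ k, xx B α k z ∈ YS A B α z := by
  induction r with
  | zero =>
    intro z hz k
    have : z = 0 := by simpa using hz
    rw [this, xx, al_zero α hadd]
    have e : B ^ k * 1 * B ^ (-k) = 1 := by group
    rw [e]; exact one_mem _
  | succ r ih =>
    intro z hz k
    have h2 : (2 ^ r : ℕ) • (z + z) = 0 := by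
      rw [← hz, pow_succ, mul_smul, two_nsmul]
    rw [xx_rel A B α hrel k z]
    exact mul_mem (mul_mem (yy_mem A B α z k) (yy_neg_mem A B α z _))
      (YS_two A B α z (ih _ h2 _))

/-- the tail of the expansion of `xx k z` -/
def zz (A B : Γ) (α : X → Γ) (k : ℤ) (z : X) : Γ :=
  yy A B α (k + 2) (-(z + z)) * xx B α (k + 2) (z + z + (z + z))

include hadd hrel in
lemma zz_mem (r : ℕ) (z : X) (hz : (2 ^ r : ℕ) • z = 0) (k : ℤ) :
    zz A B α k z ∈ YS A B α (z + z) := by
  refine mul_mem (yy_neg_mem A B α _ _) (YS_two A B α _ ?_)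
  refine xx_mem A B α hadd hrel r _ ?_ _
  rw [smul_add, smul_add, hz]; simp

include hadd hrel in
lemma xx_eq (k : ℤ) (z : X) :
    xx B α k z = yy A B α k z * yy A B α (k + 1) z * zz A B α k z :=
  xx_rel2 A B α hadd hrel k z

/-- The commutation statement at level `n`. -/
def Pn (A B : Γ) (α : X → Γ) (n : ℕ) : Prop :=
  ∀ p q : ℕ, p + q ≤ n → ∀ x y : X, (2 ^ p : ℕ) • x = 0 → (2 ^ q : ℕ) • y = 0 →
    ∀ k : ℕ, Commute (yy A B α 0 x) (yy A B α k y)

omit [AddCommGroup X] in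
lemma commute_conjB {k l : ℤ} {x y : X} (m : ℤ) (h : Commute (yy A B α k x) (yy A B α l y)) :
    Commute (yy A B α (k + m) x) (yy A B α (l + m) y) := by
  rw [← conjB, ← conjB]
  have := (Commute.conj_iff (B ^ m)).2 h
  rw [zpow_neg]; exact this

lemma Pn_int {n : ℕ} (hP : Pn A B α n) {p q : ℕ} (hpq : p + q ≤ n) {x y : X}
    (hx : (2 ^ p : ℕ) • x = 0) (hy : (2 ^ q : ℕ) • y = 0) (k l : ℤ) :
    Commute (yy A B α k x) (yy A B α l y) := by
  rcases le_total k l with hkl | hkl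
  · obtain ⟨d, hd⟩ := Int.le.dest hkl
    have h1 := commute_conjB A B α k (hP p q hpq x y hx hy d)
    rw [zero_add, add_comm (d : ℤ) k, hd] at h1
    exact h1
  · obtain ⟨d, hd⟩ := Int.le.dest hkl
    have h1 := commute_conjB A B α l (hP q p (by omega) y x hy hx d)
    rw [zero_add, add_comm (d : ℤ) l, hd] at h1
    exact h1.symm

/-- if `z'` is such that all its multiples commute then `YS` commutes -/
lemma YS_comm {x y : X} (h : ∀ k l c d : ℤ, Commute (yy A B α k (c • x)) (yy A B α l (d • y)))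
    {g g' : Γ} (hg : g ∈ YS A B α x) (hg' : g' ∈ YS A B α y) : Commute g g' := by
  have h1 : YS A B α x ≤ Subgroup.centralizer (YS A B α y) := by
    rw [YS, Subgroup.closure_le]
    rintro _ ⟨m, c, rfl⟩
    rw [SetLike.mem_coe, YS, Subgroup.centralizer_closure, Subgroup.mem_centralizer_iff]
    rintro _ ⟨m', c', rfl⟩
    exact (h m m' c c').symm.eq
  exact ((Subgroup.mem_centralizer_iff.1 (h1 hg)) g' hg').symm

include hadd hrel in
lemma stepA {r : ℕ} (x y : X) (hx : (2 ^ r : ℕ) • x = 0)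
    (h1 : ∀ g ∈ YS A B α (x + x), ∀ g' ∈ YS A B α y, Commute g g') :
    Commute (yy A B α 0 y) (yy A B α 1 x) := by
  have hz : zz A B α 0 (x + y) = zz A B α 0 x * zz A B α 0 y := by
    have e1 : -(x + y + (x + y)) = -(x + x) + -(y + y) := by abel
    have e2 : x + y + (x + y) + (x + y + (x + y)) = (x + x + (x + x)) + (y + y + (y + y)) := by
      abel
    have hc : Commute (xx B α (0 + 2) (x + x + (x + x))) (yy A B α (0 + 2) (-(y + y))) := by
      apply h1
      · refine YS_two A B α _ (xx_mem A B α hadd hrel r _ ?_ _)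
        rw [smul_add, smul_add, hx]; simp
      · exact YS_two A B α _ (yy_neg_mem A B α _ _)
    rw [zz, zz, zz, e1, e2, yy_add A B α hadd, xx_add B α hadd]
    have := hc.eq
    calc _ = yy A B α (0 + 2) (-(x + x)) * (yy A B α (0 + 2) (-(y + y)) *
          xx B α (0 + 2) (x + x + (x + x))) * xx B α (0 + 2) (y + y + (y + y)) := by group
      _ = _ := by rw [← this]; group
  have hl := xx_eq A B α hadd hrel 0 (x + y)
  rw [xx_add B α hadd, xx_eq A B α hadd hrel 0 x, xx_eq A B α hadd hrel 0 y, hz,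
    yy_add A B α hadd, yy_add A B α hadd, zero_add] at hl
  have c1 : Commute (zz A B α 0 x) (yy A B α 0 y) :=
    h1 _ (zz_mem A B α hadd hrel r x hx 0) _ (yy_mem A B α y 0)
  have c2 : Commute (zz A B α 0 x) (yy A B α 1 y) :=
    h1 _ (zz_mem A B α hadd hrel r x hx 0) _ (yy_mem A B α y 1)
  generalize yy A B α 0 x = y0 at *
  generalize yy A B α 1 x = y1 at *
  generalize yy A B α 0 y = u0 at *
  generalize yy A B α 1 y = u1 at *
  generalize zz A B α 0 x = zx at *
  generalize zz A B α 0 y = zy at *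
  have e3 : y0 * y1 * zx * (u0 * u1 * zy) = y0 * (y1 * u0) * (u1 * zx * zy) := by
    calc y0 * y1 * zx * (u0 * u1 * zy) = y0 * y1 * (zx * u0) * u1 * zy := by group
      _ = y0 * y1 * u0 * (zx * u1) * zy := by rw [c1.eq]; group
      _ = _ := by rw [c2.eq]; group
  have e4 : y0 * u0 * (y1 * u1) * (zx * zy) = y0 * (u0 * y1) * (u1 * zx * zy) := by group
  rw [e3, e4] at hl
  exact (mul_left_cancel (mul_right_cancel hl)).symm

include hadd hAB hrel in
lemma stepB {r r' : ℕ} (x y : X) (hx : (2 ^ r : ℕ) • x = 0) (hy : (2 ^ r' : ℕ) • y = 0)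
    (h1 : ∀ g ∈ YS A B α (x + x), ∀ g' ∈ YS A B α y, Commute g g')
    (h2 : ∀ g ∈ YS A B α x, ∀ g' ∈ YS A B α (y + y), Commute g g')
    (h01 : Commute (yy A B α 0 x) (yy A B α 1 y)) (k : ℕ) :
    Commute (yy A B α 0 x) (yy A B α k y) ∧ Commute (yy A B α 0 x) (yy A B α (k + 1) y) := by
  induction k with
  | zero =>
    refine ⟨?_, by simpa using h01⟩
    rw [Commute, SemiconjBy, Nat.cast_zero, ← yy_add A B α hadd, ← yy_add A B α hadd, add_comm]
  | succ k ih =>
    obtain ⟨ih1, ih2⟩ := ih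
    have e0 : ((k + 1 : ℕ) : ℤ) = (k : ℤ) + 1 := by push_cast; ring
    rw [e0]
    refine ⟨ih2, ?_⟩
    have h3 : Commute (xx B α 0 x) (xx B α (k + 1) y) := by
      rw [← conjA A B α hAB, ← conjA A B α hAB] at ih2
      exact (Commute.conj_iff A).1 ih2
    rw [xx_eq A B α hadd hrel, xx_eq A B α hadd hrel, zero_add] at h3
    have h4 : Commute (yy A B α 1 x) (yy A B α (k + 1) y) := by
      have := commute_conjB A B α 1 ih1
      rwa [zero_add] at this
    have h5 : Commute (yy A B α 1 x) (yy A B α (k + 1 + 1) y) := by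
      have := commute_conjB A B α 1 ih2
      rwa [zero_add] at this
    have mx := zz_mem A B α hadd hrel r x hx 0
    have my := zz_mem A B α hadd hrel r' y hy (k + 1)
    have c1 : Commute (zz A B α 0 x) (yy A B α (k + 1) y) := h1 _ mx _ (yy_mem A B α y _)
    have c2 : Commute (zz A B α 0 x) (yy A B α (k + 1 + 1) y) := h1 _ mx _ (yy_mem A B α y _)
    have c3 : Commute (zz A B α 0 x) (zz A B α (k + 1) y) := h1 _ mx _ (YS_two A B α y my)
    have c4 : Commute (yy A B α 0 x) (zz A B α (k + 1) y) := h2 _ (yy_mem A B α x _) _ my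
    have c5 : Commute (yy A B α 1 x) (zz A B α (k + 1) y) := h2 _ (yy_mem A B α x _) _ my
    generalize yy A B α 0 x = y0 at *
    generalize yy A B α 1 x = y1 at *
    generalize yy A B α (k + 1) y = u at *
    generalize yy A B α (k + 1 + 1) y = v at *
    generalize zz A B α 0 x = zx at *
    generalize zz A B α (k + 1) y = zy at *
    have e1 : y0 * y1 * zx * (u * v * zy) = u * (y0 * v) * (y1 * zx * zy) := by
      calc y0 * y1 * zx * (u * v * zy) = y0 * y1 * (zx * u) * v * zy := by group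
        _ = y0 * (y1 * u) * (zx * v) * zy := by rw [c1.eq]; group
        _ = (y0 * u) * (y1 * v) * zx * zy := by rw [h4.eq, c2.eq]; group
        _ = _ := by rw [ih2.eq, h5.eq]; group
    have e2 : u * v * zy * (y0 * y1 * zx) = u * (v * y0) * (y1 * zx * zy) := by
      calc u * v * zy * (y0 * y1 * zx) = u * v * (zy * y0) * y1 * zx := by group
        _ = u * v * y0 * (zy * y1) * zx := by rw [← c4.eq]; group
        _ = u * v * y0 * y1 * (zy * zx) := by rw [← c5.eq]; group
        _ = _ := by rw [← c3.eq]; group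
    have h6 := h3.eq
    rw [e1, e2] at h6
    exact mul_left_cancel (mul_right_cancel h6)

include hadd hAB hrel in
lemma Pn_all (n : ℕ) : Pn A B α n := by
  induction n with
  | zero =>
    intro p q hpq x y hx _ k
    obtain rfl : p = 0 := by omega
    have : x = 0 := by simpa using hx
    rw [this, yy_zero A B α hadd]
    exact Commute.one_left _
  | succ n ih =>
    intro p q hpq x y hx hy k
    rcases p with _ | p
    · have : x = 0 := by simpa using hx
      rw [this, yy_zero A B α hadd]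
      exact Commute.one_left _
    rcases q with _ | q
    · have : y = 0 := by simpa using hy
      rw [this, yy_zero A B α hadd]
      exact Commute.one_right _
    have hx' : (2 ^ p : ℕ) • (x + x) = 0 := by rw [← hx, pow_succ, mul_smul, two_nsmul]
    have hy' : (2 ^ q : ℕ) • (y + y) = 0 := by rw [← hy, pow_succ, mul_smul, two_nsmul]
    have hs : ∀ (m : ℕ) (z : X), (2 ^ m : ℕ) • z = 0 → ∀ c : ℤ, (2 ^ m : ℕ) • (c • z) = 0 := by
      intro m z hz c
      rw [smul_comm, hz, smul_zero]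
    have h1 : ∀ g ∈ YS A B α (x + x), ∀ g' ∈ YS A B α y, Commute g g' := fun g hg g' hg' =>
      YS_comm A B α (fun k l c d => Pn_int A B α ih (p := p) (q := q + 1) (by omega)
        (hs _ _ hx' c) (hs _ _ hy d) k l) hg hg'
    have h2 : ∀ g ∈ YS A B α x, ∀ g' ∈ YS A B α (y + y), Commute g g' := fun g hg g' hg' =>
      YS_comm A B α (fun k l c d => Pn_int A B α ih (p := p + 1) (q := q) (by omega)
        (hs _ _ hx c) (hs _ _ hy' d) k l) hg hg'
    refine (stepB A B α hadd hAB hrel x y hx hy h1 h2 ?_ k).1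
    exact stepA A B α hadd hrel y x hy (fun g hg g' hg' => (h2 g' hg' g hg).symm)

include hadd hAB hrel in
/-- All conjugates commute. -/
lemma yy_comm (hX : ∀ x : X, ∃ r : ℕ, (2 ^ r : ℕ) • x = 0) (x y : X) (k l : ℤ) :
    Commute (yy A B α k x) (yy A B α l y) := by
  obtain ⟨p, hp⟩ := hX x
  obtain ⟨q, hq⟩ := hX y
  exact Pn_int A B α (Pn_all A B α hadd hAB hrel (p + q)) le_rfl hp hq k l

end commute

section rep

variable {R : Type} [CommRing R]

/-- The homotheties with centre `c`. -/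
def homo (c : R) : Rˣ →* Equiv.Perm R where
  toFun u :=
    { toFun := fun m => (u : R) * (m - c) + c
      invFun := fun m => ((u⁻¹ : Rˣ) : R) * (m - c) + c
      left_inv := fun m => by
        have h : ((u⁻¹ : Rˣ) : R) * (u : R) = 1 := u.inv_mul
        linear_combination (m - c) * h
      right_inv := fun m => by
        have h : (u : R) * ((u⁻¹ : Rˣ) : R) = 1 := u.mul_inv
        linear_combination (m - c) * h }
  map_one' := by ext m; simp
  map_mul' u v := by ext m; simp [Equiv.Perm.mul_apply]; ring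

lemma homo_apply (c : R) (u : Rˣ) (m : R) : homo c u m = (u : R) * (m - c) + c := rfl

/-- The translations. -/
def trans (R : Type) [CommRing R] : Multiplicative R →* Equiv.Perm R where
  toFun c := Equiv.addRight c.toAdd
  map_one' := by ext m; simp
  map_mul' u v := by ext m; simp [Equiv.Perm.mul_apply]; ring

lemma trans_apply (c m : R) : trans R (Multiplicative.ofAdd c) m = m + c := rfl

/-- The affine representation. -/
def rep {X : Type} [AddCommGroup X] (φ : X →+ R) (α β : Rˣ) (w : R)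
    (h1 : w * (1 - α) = 1) (h2 : (α : R) * (1 - β) = 1 - 2 * β) : G X →* Equiv.Perm R :=
  PresentedGroup.toGroup
    (f := fun g : X ⊕ X => Sum.elim (fun i => homo (w * φ i) α) (fun j => homo (φ j) β) g) (by
      rintro _ ⟨⟨i, j⟩, rfl⟩
      simp only [map_mul, map_inv, FreeGroup.lift_apply_of, Sum.elim_inl, Sum.elim_inr]
      rw [mul_inv_eq_one]
      ext m
      simp only [Equiv.Perm.mul_apply, homo_apply, map_add, map_sub]
      linear_combination (φ i * (1 - β) + φ j * β) * h1 + φ j * h2)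

end rep

section final

variable (X : Type) [AddCommGroup X]

/-- generator `a_i` -/
def ga (i : X) : G X := PresentedGroup.of (Sum.inl i)

/-- generator `b_j` -/
def gb (j : X) : G X := PresentedGroup.of (Sum.inr j)

lemma grel (i j : X) : ga X i * gb X j = gb X (i + j) * ga X (i - j) := by
  have h : (FreeGroup.of (Sum.inl i) * FreeGroup.of (Sum.inr j) *
      (FreeGroup.of (Sum.inr (i + j)) * FreeGroup.of (Sum.inl (i - j)))⁻¹ : FreeGroup (X ⊕ X)) ∈
      rels X := ⟨(i, j), rfl⟩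
  have h1 := PresentedGroup.one_of_mem h
  rw [map_mul, map_inv, mul_inv_eq_one] at h1
  exact h1

variable (hX : ∀ x : X, ∃ r : ℕ, (2 ^ r : ℕ) • x = 0)

/-- the elements `(a_0)⁻¹ a_x` -/
def ax (x : X) : G X := al (ga X) x

include hX

lemma ax_indep (i l : X) : (ga X i)⁻¹ * ga X (i + l) = ax X l := by
  obtain ⟨r, hr⟩ := hX l
  exact al_indep (ga X) (gb X) (grel X) r l hr i

lemma ax_add (x y : X) : ax X (x + y) = ax X x * ax X y := by
  rw [← ax_indep X hX x y, ax, ax, al, al]; group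

omit hX in
lemma gb_eq (l : X) : gb X (-l) = (ax X l)⁻¹ * gb X 0 * ax X (l + l) := by
  have h1 := star (ga X) (gb X) (grel X) 0 l 0
  have e1 : (0 : X) + 0 - 0 = 0 := by abel
  have e2 : l + l - 0 = l + l := by abel
  have e3 : (0 : X) - 0 = 0 := by abel
  have e4 : 0 - l = -l := by abel
  rw [e1, e2, e3, e4] at h1
  have h2 : ax X l = gb X 0 * ax X (l + l) * (gb X (-l))⁻¹ := h1
  rw [h2]; group

lemma gb_eq' (j : X) : gb X j = ax X j * gb X 0 * ax X (-j + -j) := by
  have h1 := gb_eq X (-j)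
  rw [neg_neg] at h1
  have h2 : (ax X (-j))⁻¹ = ax X j := by
    rw [inv_eq_iff_mul_eq_one, ← ax_add X hX, neg_add_cancel]
    exact al_zero (ax X) (ax_add X hX)
  rw [h1, h2]

omit hX in
lemma ga_eq (i : X) : ga X i = ga X 0 * ax X i := by
  rw [ax, al]; group

omit hX in
lemma hAB' : ga X 0 * gb X 0 = gb X 0 * ga X 0 := by
  have := grel X 0 0
  simpa using this

lemma hrel' (x : X) : ax X x = (ga X 0 * ax X x * (ga X 0)⁻¹) *
    (gb X 0 * ((ga X 0 * ax X (-x) * (ga X 0)⁻¹) * ax X (x + x)) * (gb X 0)⁻¹) := by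
  have h1 := grel X x 0
  rw [add_zero, sub_zero, gb_eq' X hX x, ga_eq X x] at h1
  have h2 : ax X (-x) = (ax X x)⁻¹ := by
    rw [eq_inv_iff_mul_eq_one, ← ax_add X hX, neg_add_cancel]
    exact al_zero (ax X) (ax_add X hX)
  have h3 : ax X (-x + -x) = (ax X (x + x))⁻¹ := by
    rw [eq_inv_iff_mul_eq_one, ← ax_add X hX]
    have : -x + -x + (x + x) = 0 := by abel
    rw [this]
    exact al_zero (ax X) (ax_add X hX)
  rw [h3] at h1
  rw [h2]
  have hc := hAB' X
  generalize ga X 0 = A at *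
  generalize gb X 0 = B at *
  generalize ax X x = c at *
  generalize ax X (x + x) = d at *
  have h4 : A⁻¹ * B * A = B := by rw [mul_assoc, ← hc]; group
  calc c = (c * B * d⁻¹ * (A * c)) * (c⁻¹ * A⁻¹ * d * B⁻¹) := by group
    _ = (A * c * B) * (c⁻¹ * A⁻¹ * d * B⁻¹) := by rw [h1]
    _ = A * c * (A⁻¹ * B * A) * (c⁻¹ * A⁻¹ * d * B⁻¹) := by rw [h4]
    _ = _ := by group

lemma gcomm (x y : X) (k l : ℤ) :
    Commute (xx (gb X 0) (ax X) k x) (xx (gb X 0) (ax X) l y) := by
  have := yy_comm (ga X 0) (gb X 0) (ax X) (ax_add X hX) (hAB' X) (hrel' X hX) hX x y k l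
  rw [← conjA _ _ _ (hAB' X), ← conjA _ _ _ (hAB' X)] at this
  exact (Commute.conj_iff _).1 this

omit hX in
/-- the set of generators of `CC` -/
def gens : Set (G X) := {g | ∃ (k : ℤ) (z : X), g = xx (gb X 0) (ax X) k z}

omit hX in
/-- the subgroup generated by all `b^k α(z) b^{-k}` -/
def CC : Subgroup (G X) := Subgroup.closure (gens X)

lemma A_mem (c : G X) (hc : c ∈ CC X) : (ga X 0)⁻¹ * c * ga X 0 ∈ CC X := by
  have h1 : ∀ z, YS (ga X 0) (gb X 0) (ax X) z ≤
      (CC X).map (MulAut.conj (ga X 0)).toMonoidHom := by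
    intro z
    rw [YS, Subgroup.closure_le]
    rintro _ ⟨m, c, rfl⟩
    refine ⟨xx (gb X 0) (ax X) m (c • z), Subgroup.subset_closure ⟨m, _, rfl⟩, ?_⟩
    exact conjA _ _ _ (hAB' X) m (c • z)
  have h2 : CC X ≤ (CC X).map (MulAut.conj (ga X 0)).toMonoidHom := by
    rw [CC, Subgroup.closure_le]
    rintro _ ⟨k, z, rfl⟩
    obtain ⟨r, hr⟩ := hX z
    exact h1 z (xx_mem _ _ _ (ax_add X hX) (hrel' X hX) r z hr k)
  obtain ⟨d, hd, hd2⟩ := h2 hc
  have h3 : ga X 0 * d * (ga X 0)⁻¹ = c := hd2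
  have h4 : (ga X 0)⁻¹ * c * ga X 0 = d := by rw [← h3]; group
  rw [h4]; exact hd

omit hX in
lemma B_mem (l : ℤ) (c : G X) (hc : c ∈ CC X) : gb X 0 ^ l * c * gb X 0 ^ (-l) ∈ CC X := by
  have h2 : (CC X).map (MulAut.conj (gb X 0 ^ l)).toMonoidHom ≤ CC X := by
    rw [CC, MonoidHom.map_closure, Subgroup.closure_le]
    rintro _ ⟨_, ⟨k, z, rfl⟩, rfl⟩
    refine Subgroup.subset_closure ⟨k + l, z, ?_⟩
    show gb X 0 ^ l * xx (gb X 0) (ax X) k z * (gb X 0 ^ l)⁻¹ = _
    rw [xx, xx, zpow_neg, zpow_neg, zpow_add,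
      show gb X 0 ^ k * gb X 0 ^ l = gb X 0 ^ l * gb X 0 ^ k from
        (Commute.refl (gb X 0)).zpow_zpow k l]
    group
  rw [zpow_neg]
  exact h2 ⟨c, hc, rfl⟩

/-- the union of the conjugates of `CC` -/
def NN : Subgroup (G X) where
  carrier := {g | ∃ k : ℕ, (ga X 0 ^ k)⁻¹ * g * ga X 0 ^ k ∈ CC X}
  one_mem' := ⟨0, by simp⟩
  mul_mem' := by
    rintro g g' ⟨k, hk⟩ ⟨l, hl⟩
    have up : ∀ (g : G X) (k d : ℕ), (ga X 0 ^ k)⁻¹ * g * ga X 0 ^ k ∈ CC X →
        (ga X 0 ^ (k + d))⁻¹ * g * ga X 0 ^ (k + d) ∈ CC X := by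
      intro g k d hk
      induction d with
      | zero => exact hk
      | succ d ih =>
        have := A_mem X hX _ ih
        rw [← add_assoc, pow_succ]
        have e : (ga X 0 ^ (k + d) * ga X 0)⁻¹ * g * (ga X 0 ^ (k + d) * ga X 0) =
          (ga X 0)⁻¹ * ((ga X 0 ^ (k + d))⁻¹ * g * ga X 0 ^ (k + d)) * ga X 0 := by group
        rw [e]; exact this
    refine ⟨k + l, ?_⟩
    have h1 := up g k l hk
    have h2 := up g' l k hl
    rw [add_comm l k] at h2
    have := mul_mem h1 h2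
    have e : (ga X 0 ^ (k + l))⁻¹ * (g * g') * ga X 0 ^ (k + l) =
      (ga X 0 ^ (k + l))⁻¹ * g * ga X 0 ^ (k + l) *
        ((ga X 0 ^ (k + l))⁻¹ * g' * ga X 0 ^ (k + l)) := by group
    rw [e]; exact this
  inv_mem' := by
    rintro g ⟨k, hk⟩
    refine ⟨k, ?_⟩
    have := inv_mem hk
    have e : (ga X 0 ^ k)⁻¹ * g⁻¹ * ga X 0 ^ k = ((ga X 0 ^ k)⁻¹ * g * ga X 0 ^ k)⁻¹ := by group
    rw [e]; exact this

lemma mem_NN (g : G X) : g ∈ NN X hX ↔ ∃ k : ℕ, (ga X 0 ^ k)⁻¹ * g * ga X 0 ^ k ∈ CC X := Iff.rfl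

omit hX in
lemma ax_mem_CC (x : X) : ax X x ∈ CC X :=
  Subgroup.subset_closure ⟨0, x, by simp [xx]⟩

lemma CC_le_NN : CC X ≤ NN X hX := fun c hc => ⟨0, by simpa using hc⟩

lemma A_conj (g : G X) (hg : g ∈ NN X hX) : ga X 0 * g * (ga X 0)⁻¹ ∈ NN X hX := by
  obtain ⟨k, hk⟩ := hg
  refine ⟨k + 1, ?_⟩
  rw [pow_succ']
  have e : (ga X 0 * ga X 0 ^ k)⁻¹ * (ga X 0 * g * (ga X 0)⁻¹) * (ga X 0 * ga X 0 ^ k) =
    (ga X 0 ^ k)⁻¹ * g * ga X 0 ^ k := by group
  rw [e]; exact hk

lemma A_conj' (g : G X) (hg : g ∈ NN X hX) : (ga X 0)⁻¹ * g * ga X 0 ∈ NN X hX := by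
  obtain ⟨k, hk⟩ := hg
  refine ⟨k, ?_⟩
  have e : (ga X 0 ^ k)⁻¹ * ((ga X 0)⁻¹ * g * ga X 0) * ga X 0 ^ k =
    (ga X 0)⁻¹ * ((ga X 0 ^ k)⁻¹ * g * ga X 0 ^ k) * ga X 0 := by
    have h1 : (ga X 0) * ga X 0 ^ k = ga X 0 ^ k * ga X 0 := (pow_succ' _ _).symm.trans (pow_succ _ _)
    calc _ = (ga X 0 * ga X 0 ^ k)⁻¹ * g * (ga X 0 * ga X 0 ^ k) := by group
      _ = (ga X 0 ^ k * ga X 0)⁻¹ * g * (ga X 0 ^ k * ga X 0) := by rw [h1]
      _ = _ := by group
  rw [e]; exact A_mem X hX _ hk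

lemma B_conj (l : ℤ) (g : G X) (hg : g ∈ NN X hX) :
    gb X 0 ^ l * g * gb X 0 ^ (-l) ∈ NN X hX := by
  obtain ⟨k, hk⟩ := hg
  refine ⟨k, ?_⟩
  have h1 : (ga X 0 ^ k) * gb X 0 ^ l = gb X 0 ^ l * ga X 0 ^ k :=
    (Commute.pow_left (Commute.zpow_right (hAB' X) l) k)
  have h2 : (ga X 0 ^ k)⁻¹ * gb X 0 ^ l = gb X 0 ^ l * (ga X 0 ^ k)⁻¹ := by
    rw [inv_mul_eq_iff_eq_mul, ← mul_assoc, h1]; group
  have e : (ga X 0 ^ k)⁻¹ * (gb X 0 ^ l * g * gb X 0 ^ (-l)) * ga X 0 ^ k =
    gb X 0 ^ l * ((ga X 0 ^ k)⁻¹ * g * ga X 0 ^ k) * gb X 0 ^ (-l) := by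
    rw [zpow_neg]
    calc _ = ((ga X 0 ^ k)⁻¹ * gb X 0 ^ l) * g * ((ga X 0 ^ k)⁻¹ * gb X 0 ^ l)⁻¹ := by group
      _ = (gb X 0 ^ l * (ga X 0 ^ k)⁻¹) * g * (gb X 0 ^ l * (ga X 0 ^ k)⁻¹)⁻¹ := by rw [h2]
      _ = _ := by group
  rw [e]; exact B_mem X l _ hk

/-- The elements normalising `NN` together with their inverses. -/
lemma NN_normal : (NN X hX).Normal := by
  have key : ∀ g : G X, ∀ n ∈ NN X hX, g * n * g⁻¹ ∈ NN X hX ∧ g⁻¹ * n * g ∈ NN X hX := by
    intro g
    have hx : ∀ x : X, ax X x ∈ NN X hX := fun x => CC_le_NN X hX (ax_mem_CC X x)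
    have hA : ∀ n ∈ NN X hX, ga X 0 * n * (ga X 0)⁻¹ ∈ NN X hX ∧
        (ga X 0)⁻¹ * n * ga X 0 ∈ NN X hX := fun n hn => ⟨A_conj X hX n hn, A_conj' X hX n hn⟩
    have hB : ∀ n ∈ NN X hX, gb X 0 * n * (gb X 0)⁻¹ ∈ NN X hX ∧
        (gb X 0)⁻¹ * n * gb X 0 ∈ NN X hX := by
      intro n hn
      have h1 := B_conj X hX 1 n hn
      have h2 := B_conj X hX (-1) n hn
      simp only [zpow_neg, zpow_one, inv_inv] at h1 h2
      exact ⟨h1, h2⟩
    have hgen : ∀ i : X, ∀ n ∈ NN X hX, ax X i * n * (ax X i)⁻¹ ∈ NN X hX ∧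
        (ax X i)⁻¹ * n * ax X i ∈ NN X hX := fun i n hn =>
      ⟨mul_mem (mul_mem (hx i) hn) (inv_mem (hx i)), mul_mem (mul_mem (inv_mem (hx i)) hn) (hx i)⟩
    -- closure under products
    have hmul : ∀ g g' : G X, (∀ n ∈ NN X hX, g * n * g⁻¹ ∈ NN X hX ∧ g⁻¹ * n * g ∈ NN X hX) →
        (∀ n ∈ NN X hX, g' * n * g'⁻¹ ∈ NN X hX ∧ g'⁻¹ * n * g' ∈ NN X hX) →
        ∀ n ∈ NN X hX, (g * g') * n * (g * g')⁻¹ ∈ NN X hX ∧ (g * g')⁻¹ * n * (g * g') ∈ NN X hX := by
      intro g g' h h' n hn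
      constructor
      · have e : g * g' * n * (g * g')⁻¹ = g * (g' * n * g'⁻¹) * g⁻¹ := by group
        rw [e]; exact (h _ (h' n hn).1).1
      · have e : (g * g')⁻¹ * n * (g * g') = g'⁻¹ * (g⁻¹ * n * g) * g' := by group
        rw [e]; exact (h' _ (h n hn).2).2
    induction g using PresentedGroup.induction_on with
    | _ w =>
      induction w using FreeGroup.induction_on with
      | C1 => intro n hn; simpa using hn
      | of x =>
        rcases x with i | j
        · have e : PresentedGroup.mk (rels X) (FreeGroup.of (Sum.inl i)) = ga X 0 * ax X i :=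
            ga_eq X i
          intro n hn
          have := hmul _ _ hA (hgen i) n hn
          rw [← e] at this
          exact this
        · have e : PresentedGroup.mk (rels X) (FreeGroup.of (Sum.inr j)) =
              ax X j * gb X 0 * ax X (-j + -j) := gb_eq' X hX j
          intro n hn
          have := hmul _ _ (hmul _ _ (hgen j) hB) (hgen (-j + -j)) n hn
          rw [← e] at this
          exact this
      | inv_of x ih =>
        intro n hn
        rw [map_inv, inv_inv]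
        exact ⟨(ih n hn).2, (ih n hn).1⟩
      | mul v w hv hw =>
        rw [map_mul]
        exact hmul _ _ hv hw
  exact ⟨fun n hn g => (key g n hn).1⟩

omit hX in
/-- the abelianised exponents -/
def expo : G X →* Multiplicative ℤ × Multiplicative ℤ :=
  PresentedGroup.toGroup
    (f := fun g : X ⊕ X => Sum.elim (fun _ => (Multiplicative.ofAdd 1, 1))
      (fun _ => (1, Multiplicative.ofAdd 1)) g) (by
      rintro _ ⟨⟨i, j⟩, rfl⟩
      simp only [map_mul, map_inv, FreeGroup.lift_apply_of, Sum.elim_inl, Sum.elim_inr]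
      rw [mul_inv_eq_one, mul_comm])

omit hX in
lemma expo_ga (i : X) : expo X (ga X i) = (Multiplicative.ofAdd 1, 1) := by
  simp [expo, ga]

omit hX in
lemma expo_gb (i : X) : expo X (gb X i) = (1, Multiplicative.ofAdd 1) := by
  simp [expo, gb]

omit hX in
/-- the section on the exponents -/
def sect : Multiplicative ℤ × Multiplicative ℤ →* G X :=
  MonoidHom.noncommCoprod (zpowersHom (G X) (ga X 0)) (zpowersHom (G X) (gb X 0)) (by
    intro m n
    rw [zpowersHom_apply, zpowersHom_apply]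
    exact Commute.zpow_zpow (hAB' X) _ _)

lemma ker_expo (g : G X) (hg : expo X g = 1) : g ∈ NN X hX := by
  have := NN_normal X hX
  let q := QuotientGroup.mk' (NN X hX)
  have hx : ∀ x, q (ax X x) = 1 := fun x =>
    (QuotientGroup.eq_one_iff _).2 (CC_le_NN X hX (ax_mem_CC X x))
  have e : q = (q.comp (sect X)).comp (expo X) := by
    apply PresentedGroup.ext
    intro x
    rcases x with i | j
    · have h1 : q (ga X i) = q (ga X 0) := by rw [ga_eq, map_mul, hx, mul_one]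
      show q (ga X i) = q (sect X (expo X (ga X i)))
      rw [expo_ga, h1, sect, MonoidHom.noncommCoprod_apply]
      simp
    · have h1 : q (gb X j) = q (gb X 0) := by
        rw [gb_eq' X hX j, map_mul, map_mul, hx, hx, mul_one, one_mul]
      show q (gb X j) = q (sect X (expo X (gb X j)))
      rw [expo_gb, h1, sect, MonoidHom.noncommCoprod_apply]
      simp
  have h2 : q g = 1 := by
    rw [e, MonoidHom.comp_apply, hg, map_one]
  exact (QuotientGroup.eq_one_iff _).1 h2

/-- `CC` is commutative -/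
@[reducible] noncomputable def commCC : CommGroup (CC X) :=
  { (inferInstance : Group (CC X)) with
    mul_comm := by
      rintro ⟨g, hg⟩ ⟨g', hg'⟩
      apply Subtype.ext
      show g * g' = g' * g
      have h1 : CC X ≤ Subgroup.centralizer (CC X) := by
        rw [CC, Subgroup.closure_le]
        rintro _ ⟨k, z, rfl⟩
        rw [SetLike.mem_coe, Subgroup.centralizer_closure, Subgroup.mem_centralizer_iff]
        rintro _ ⟨l, w, rfl⟩
        exact (gcomm X hX w z l k).eq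
      exact (Subgroup.mem_centralizer_iff.1 (h1 hg) g' hg').symm }

/-- the parametrisation of `CC` -/
lemma exists_Phi : ∃ Φ : (ℤ →₀ X) → G X, Φ 0 = 1 ∧ (∀ f f', Φ (f + f') = Φ f * Φ f') ∧
    (∀ k z, Φ (Finsupp.single k z) = xx (gb X 0) (ax X) k z) ∧
    ∀ g ∈ CC X, ∃ f, Φ f = g := by
  let _ := commCC X hX
  have hz : ∀ k, xx (gb X 0) (ax X) k 0 = 1 := by
    intro k
    rw [xx, al_zero (ax X) (ax_add X hX), zpow_neg]; group
  let φ : ∀ k : ℤ, X →+ Additive (CC X) := fun k =>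
    { toFun := fun z => Additive.ofMul ⟨xx (gb X 0) (ax X) k z,
        Subgroup.subset_closure ⟨k, z, rfl⟩⟩
      map_zero' := by
        apply Additive.toMul.injective
        apply Subtype.ext
        exact hz k
      map_add' := fun z w => by
        apply Additive.toMul.injective
        apply Subtype.ext
        exact xx_add _ _ (ax_add X hX) k z w }
  let Ψ : (ℤ →₀ X) →+ Additive (CC X) := Finsupp.liftAddHom φ
  let Φ : (ℤ →₀ X) → G X := fun f => ((Additive.toMul (Ψ f) : CC X) : G X)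
  have h0 : Φ 0 = 1 := by
    show ((Additive.toMul (Ψ 0) : CC X) : G X) = 1
    rw [map_zero]; rfl
  have hadd : ∀ f f', Φ (f + f') = Φ f * Φ f' := by
    intro f f'
    show ((Additive.toMul (Ψ (f + f')) : CC X) : G X) = _
    rw [map_add]; rfl
  have hs : ∀ k z, Φ (Finsupp.single k z) = xx (gb X 0) (ax X) k z := by
    intro k z
    show ((Additive.toMul (Ψ (Finsupp.single k z)) : CC X) : G X) = _
    rw [show Ψ (Finsupp.single k z) = φ k z from Finsupp.liftAddHom_apply_single φ k z]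
    rfl
  refine ⟨Φ, h0, hadd, hs, ?_⟩
  intro g hg
  rw [CC] at hg
  induction hg using Subgroup.closure_induction with
  | mem x hx =>
    obtain ⟨k, z, rfl⟩ := hx
    exact ⟨_, hs k z⟩
  | one => exact ⟨0, h0⟩
  | mul x y _ _ hx hy =>
    obtain ⟨f, rfl⟩ := hx
    obtain ⟨f', rfl⟩ := hy
    exact ⟨f + f', hadd f f'⟩
  | inv x _ hx =>
    obtain ⟨f, rfl⟩ := hx
    refine ⟨-f, ?_⟩
    rw [eq_inv_iff_mul_eq_one, ← hadd, neg_add_cancel, h0]

omit hX in
/-- the image of an element of `CC` under the affine representation -/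
lemma rep_Phi {R : Type} [CommRing R] (φ : X →+ R) (α β : Rˣ) (w : R)
    (h1 : w * (1 - α) = 1) (h2 : (α : R) * (1 - β) = 1 - 2 * β)
    (Φ : (ℤ →₀ X) → G X) (h0 : Φ 0 = 1) (hadd : ∀ f f', Φ (f + f') = Φ f * Φ f')
    (hs : ∀ k z, Φ (Finsupp.single k z) = xx (gb X 0) (ax X) k z) (f : ℤ →₀ X) :
    rep φ α β w h1 h2 (Φ f) = trans R (Multiplicative.ofAdd
      (((α⁻¹ : Rˣ) : R) * f.sum (fun k z => ((β ^ k : Rˣ) : R) * φ z))) := by
  induction f using Finsupp.induction_linear with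
  | zero => rw [h0, map_one]; simp
  | add f g hf hg =>
    rw [hadd, map_mul, hf, hg, ← map_mul, ← ofAdd_add, Finsupp.sum_add_index', mul_add]
    · intro k; simp
    · intro k z z'; rw [map_add, mul_add]
  | single k z =>
    rw [hs, Finsupp.sum_single_index (by simp)]
    have ra : ∀ i, rep φ α β w h1 h2 (ga X i) = homo (w * φ i) α := fun i => by simp [rep, ga]
    have rb : rep φ α β w h1 h2 (gb X 0) = homo 0 β := by simp [rep, gb]
    rw [xx, map_mul, map_mul, map_zpow, map_zpow, rb, ax, al, map_mul, map_inv, ra, ra,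
      ← map_zpow, ← map_zpow, ← map_inv]
    ext m
    simp only [Equiv.Perm.mul_apply, homo_apply, trans_apply, map_zero, mul_zero, sub_zero,
      add_zero]
    have i1 : ((α⁻¹ : Rˣ) : R) * (α : R) = 1 := α.inv_mul
    have i2 : ((β ^ k : Rˣ) : R) * ((β ^ (-k) : Rˣ) : R) = 1 := by
      rw [← Units.val_mul, ← zpow_add]; simp
    linear_combination (((β ^ k : Rˣ) : R) * (((β ^ (-k) : Rˣ) : R) * m)) * i1 + m * i2 +
      ((β ^ k : Rˣ) : R) * ((α⁻¹ : Rˣ) : R) * φ z * h1

end final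

section ring

lemma exists_fin_ring (X : Type) [AddCommGroup X] [Finite X] (e : ℕ)
    (he : ∀ x : X, (2 ^ e : ℕ) • x = 0) : ∃ (A : Type) (_ : CommRing A) (_ : Finite A)
    (φ : X →+ A), Function.Injective φ ∧ IsNilpotent (2 : A) := by
  let _ : Module (ZMod (2 ^ e)) X := AddCommGroup.zmodModule he
  let _ : Module (ZMod (2 ^ e))ᵐᵒᵖ X :=
    Module.compHom X ((RingHom.id (ZMod (2 ^ e))).fromOpposite mul_comm)
  have : IsCentralScalar (ZMod (2 ^ e)) X := ⟨fun _ _ => rfl⟩
  have : NeZero (2 ^ e) := ⟨by positivity⟩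
  refine ⟨TrivSqZeroExt (ZMod (2 ^ e)) X, inferInstance, ?_,
    (TrivSqZeroExt.inrHom (ZMod (2 ^ e)) X).toAddMonoidHom, TrivSqZeroExt.inr_injective, e, ?_⟩
  · exact (inferInstance : Finite (ZMod (2 ^ e) × X))
  · have h1 : (2 : TrivSqZeroExt (ZMod (2 ^ e)) X) ^ e =
        TrivSqZeroExt.inlHom (ZMod (2 ^ e)) X ((2 : ZMod (2 ^ e)) ^ e) := by
      rw [map_pow, map_ofNat]
    have h2 : (2 : ZMod (2 ^ e)) ^ e = 0 := by
      have := ZMod.natCast_self (2 ^ e)
      exact_mod_cast this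
    rw [h1, h2, map_zero]

lemma exists_good_ring (Y : Type) [AddCommGroup Y] [Finite Y] (e : ℕ)
    (he : ∀ x : Y, (2 ^ e : ℕ) • x = 0) (f : ℤ →₀ Y) (hf : f ≠ 0) :
    ∃ (S : Type) (_ : CommRing S) (_ : Finite S) (φ : Y →+ S) (α β : Sˣ) (w : S),
      w * (1 - α) = 1 ∧ (α : S) * (1 - β) = 1 - 2 * β ∧
      f.sum (fun k z => ((β ^ k : Sˣ) : S) * φ z) ≠ 0 := by
  obtain ⟨A, _, _, φ, hφ, hnil⟩ := exists_fin_ring Y e he
  obtain ⟨k₀, hk₀⟩ := Finsupp.ne_iff.1 hf
  have hφ0 : φ (f k₀) ≠ 0 := fun h => hk₀ (hφ (by simpa using h))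
  have : Nontrivial A := ⟨⟨_, _, hφ0⟩⟩
  -- a shift making all exponents nonnegative
  obtain ⟨M, hM⟩ : ∃ M : ℕ, ∀ k ∈ f.support, 0 ≤ k + (M : ℤ) := by
    refine ⟨∑ k ∈ f.support, k.natAbs, fun k hk => ?_⟩
    have h1 : k.natAbs ≤ ∑ k ∈ f.support, k.natAbs :=
      Finset.single_le_sum (f := fun k : ℤ => k.natAbs) (fun _ _ => Nat.zero_le _) hk
    have h2 : -(k.natAbs : ℤ) ≤ k := by omega
    have h3 : (k.natAbs : ℤ) ≤ ((∑ k ∈ f.support, k.natAbs : ℕ) : ℤ) := by exact_mod_cast h1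
    linarith
  let P : A[X] := f.sum fun k z => monomial (k + (M : ℤ)).toNat (φ z)
  have hP : P ≠ 0 := by
    intro h
    have h1 := congrArg (fun q => coeff q (k₀ + (M : ℤ)).toNat) h
    simp only [coeff_zero] at h1
    apply hφ0
    rw [← h1]
    show _ = (∑ k ∈ f.support, monomial (k + (M : ℤ)).toNat (φ (f k))).coeff _
    rw [finsetSum_coeff, Finset.sum_eq_single k₀]
    · rw [coeff_monomial, if_pos rfl]
    · intro k hk hkk
      rw [coeff_monomial, if_neg]
      intro h2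
      apply hkk
      have h3 := hM k hk
      have h4 := hM k₀ (Finsupp.mem_support_iff.2 (by simpa using hk₀))
      omega
    · intro h2
      have : f k₀ = 0 := by simpa using h2
      rw [this, map_zero]; simp
  let L := P.natDegree + 1
  let h : A[X] := (X * (X - C 1)) ^ L + 1
  have hq : (X * (X - C 1) : A[X]).Monic := monic_X.mul (monic_X_sub_C 1)
  have hqd : (X * (X - C 1) : A[X]).natDegree = 2 := by
    rw [monic_X.natDegree_mul (monic_X_sub_C 1), natDegree_X, natDegree_X_sub_C]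
  have hqL : ((X * (X - C 1)) ^ L : A[X]).natDegree = L * 2 := by
    rw [hq.natDegree_pow, hqd]
  have hdeg : (1 : A[X]).degree < ((X * (X - C 1)) ^ L : A[X]).degree := by
    rw [degree_eq_natDegree (hq.pow L).ne_zero, hqL, degree_one]
    exact_mod_cast (by omega : 0 < L * 2)
  have hmon : h.Monic := (hq.pow L).add_of_left hdeg
  have hnd : h.natDegree = L * 2 := by
    rw [← hqL]
    exact natDegree_add_eq_left_of_degree_lt hdeg
  have hndvd : ¬ h ∣ P := hmon.not_dvd_of_natDegree_lt hP (by rw [hnd]; omega)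
  let S : Type := AdjoinRoot h
  have : Module.Finite A S := hmon.finite_adjoinRoot
  have hfin : Finite S := Module.finite_of_finite A
  let s : S := AdjoinRoot.root h
  have hs : (s * (s - 1)) ^ L = -1 := by
    have h1 : AdjoinRoot.mk h h = 0 := AdjoinRoot.mk_self
    have h2 : AdjoinRoot.mk h h = (s * (s - 1)) ^ L + 1 := by
      show AdjoinRoot.mk h ((X * (X - C 1)) ^ L + 1) = _
      rw [map_add, map_pow, map_mul, map_sub, AdjoinRoot.mk_X, AdjoinRoot.mk_C, map_one, map_one]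
    rw [h2] at h1
    linear_combination h1
  have hu : IsUnit (s * (s - 1)) := by
    rw [← isUnit_pow_iff (n := L) (by omega), hs]
    exact isUnit_one.neg
  obtain ⟨β, hβ⟩ := isUnit_of_mul_isUnit_left hu
  obtain ⟨γ', hγ'⟩ := isUnit_of_mul_isUnit_right hu
  let γ : Sˣ := -γ'
  have hγ : (γ : S) = 1 - s := by rw [Units.val_neg, hγ']; ring
  have hnil2 : IsNilpotent (2 * s : S) := by
    have h1 : IsNilpotent (2 : S) := by
      have := hnil.map (algebraMap A S)
      rwa [map_ofNat] at this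
    exact (Commute.all _ _).isNilpotent_mul_right h1
  obtain ⟨δ, hδ⟩ := hnil2.isUnit_one_sub
  let φ' : Y →+ S := (algebraMap A S).toAddMonoidHom.comp φ
  refine ⟨S, inferInstance, hfin, φ', δ * γ⁻¹, β, (γ : S) * ((β⁻¹ : Sˣ) : S), ?_, ?_, ?_⟩
  · have i1 : (γ : S) * ((γ⁻¹ : Sˣ) : S) = 1 := γ.mul_inv
    have i2 : (β : S) * ((β⁻¹ : Sˣ) : S) = 1 := β.mul_inv
    have e1 : (δ : S) = γ - β := by rw [hδ, hγ, hβ]; ring
    rw [Units.val_mul, e1]
    linear_combination (-((γ : S) * ((β⁻¹ : Sˣ) : S)) + β * ((β⁻¹ : Sˣ) : S)) * i1 + i2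
  · have i1 : (γ : S) * ((γ⁻¹ : Sˣ) : S) = 1 := γ.mul_inv
    rw [Units.val_mul]
    rw [← hβ] at hδ hγ
    linear_combination (δ : S) * i1 - (δ : S) * ((γ⁻¹ : Sˣ) : S) * hγ + hδ
  · intro h0
    apply hndvd
    rw [← AdjoinRoot.mk_eq_zero]
    show AdjoinRoot.mk h (f.sum fun k z => monomial (k + (M : ℤ)).toNat (φ z)) = 0
    have h1 : AdjoinRoot.mk h (f.sum fun k z => monomial (k + (M : ℤ)).toNat (φ z)) =
        ((β ^ (M : ℤ) : Sˣ) : S) * f.sum (fun k z => ((β ^ k : Sˣ) : S) * φ' z) := by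
      rw [Finsupp.sum, Finsupp.sum, map_sum, Finset.mul_sum]
      apply Finset.sum_congr rfl
      intro k hk
      have h3 := hM k hk
      rw [← C_mul_X_pow_eq_monomial, map_mul, map_pow, AdjoinRoot.mk_X, AdjoinRoot.mk_C]
      show AdjoinRoot.of h (φ (f k)) * s ^ _ = _ * (_ * AdjoinRoot.of h (φ (f k)))
      rw [← hβ, ← Units.val_pow_eq_pow_val, ← mul_assoc, ← Units.val_mul, ← zpow_add,
        mul_comm, ← zpow_natCast, Int.toNat_of_nonneg h3, add_comm]
    rw [h1, h0, mul_zero]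

end ring

/-- A group is residually finite if every non-trivial element survives in a finite quotient. -/
def ResiduallyFinite (Γ : Type) [Group Γ] : Prop :=
  ∀ g : Γ, g ≠ 1 → ∃ (H : Type) (_ : Group H) (_ : Finite H) (φ : Γ →* H), φ g ≠ 1

lemma int_rf (m : ℤ) (hm : m ≠ 0) : ((m : ℤ) : ZMod (m.natAbs + 1)) ≠ 0 := by
  intro h
  rw [ZMod.intCast_zmod_eq_zero_iff_dvd] at h
  have h1 := Int.natAbs_dvd_natAbs.2 h
  rw [Int.natAbs_natCast] at h1
  have h2 := Nat.le_of_dvd (Int.natAbs_pos.2 hm) h1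
  omega

/-- The group is residually finite when `X` is a finite abelian `2`-group. -/
lemma two_group_rf (X : Type) [AddCommGroup X] [Finite X] (e : ℕ) (hc : Nat.card X = 2 ^ e) :
    ResiduallyFinite (G X) := by
  have he : ∀ x : X, (2 ^ e : ℕ) • x = 0 := by
    intro x; rw [← hc]; exact card_nsmul_eq_zero'
  have hX : ∀ x : X, ∃ r : ℕ, (2 ^ r : ℕ) • x = 0 := fun x => ⟨e, he x⟩
  intro g hg
  by_cases hexp : expo X g = 1
  · obtain ⟨k, hk⟩ := (mem_NN X hX g).1 (ker_expo X hX g hexp)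
    obtain ⟨Φ, h0, hadd, hs, hsurj⟩ := exists_Phi X hX
    obtain ⟨f, hf⟩ := hsurj _ hk
    have hf0 : f ≠ 0 := by
      rintro rfl
      rw [h0] at hf
      apply hg
      have : g = ga X 0 ^ k * ((ga X 0 ^ k)⁻¹ * g * ga X 0 ^ k) * (ga X 0 ^ k)⁻¹ := by group
      rw [this, ← hf]; group
    obtain ⟨S, _, _, φ, α, β, w, h1, h2, h3⟩ := exists_good_ring X e he f hf0
    refine ⟨Equiv.Perm S, inferInstance, inferInstance, rep φ α β w h1 h2, ?_⟩
    intro h4
    have h5 := rep_Phi X φ α β w h1 h2 Φ h0 hadd hs f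
    rw [hf, map_mul, map_mul, h4, mul_one, map_inv, inv_mul_cancel] at h5
    have h6 := congrArg (fun q : Equiv.Perm S => q 0) h5
    simp only [trans_apply, Equiv.Perm.one_apply, zero_add] at h6
    apply h3
    have i1 : (α : S) * ((α⁻¹ : Sˣ) : S) = 1 := α.mul_inv
    calc f.sum (fun k z => ((β ^ k : Sˣ) : S) * φ z) = (α : S) * ((α⁻¹ : Sˣ) : S) *
          f.sum (fun k z => ((β ^ k : Sˣ) : S) * φ z) := by rw [i1, one_mul]
      _ = 0 := by rw [mul_assoc, ← h6, mul_zero]
  · by_cases h1 : (expo X g).1 = 1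
    · have h2 : (expo X g).2 ≠ 1 := fun h2 => hexp (Prod.ext h1 h2)
      have h3 : (expo X g).2.toAdd ≠ 0 := h2
      refine ⟨Multiplicative (ZMod ((expo X g).2.toAdd.natAbs + 1)), inferInstance,
        inferInstance, ((AddMonoidHom.toMultiplicative (Int.castAddHom _)).comp
          (MonoidHom.snd _ _)).comp (expo X), ?_⟩
      exact int_rf _ h3
    · have h3 : (expo X g).1.toAdd ≠ 0 := h1
      refine ⟨Multiplicative (ZMod ((expo X g).1.toAdd.natAbs + 1)), inferInstance,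
        inferInstance, ((AddMonoidHom.toMultiplicative (Int.castAddHom _)).comp
          (MonoidHom.fst _ _)).comp (expo X), ?_⟩
      exact int_rf _ h3

/-- There are finite abelian groups of order `> 2` for which `π₁(Δ_X)` is residually finite;
in fact it is residually finite for every finite abelian `2`-group. -/
theorem result :
    (∃ (X : Type) (_ : AddCommGroup X) (_ : Finite X), 2 < Nat.card X ∧
      ResiduallyFinite (G X)) ∧
    ∀ (X : Type) [AddCommGroup X] [Finite X] (e : ℕ), Nat.card X = 2 ^ e →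
      ResiduallyFinite (G X) := by
  refine ⟨⟨ZMod 4, inferInstance, inferInstance, ?_, ?_⟩, two_group_rf⟩
  · simp
  · exact two_group_rf (ZMod 4) 2 (by simp)

end Pool.Agent.Results.MP_4d6048_al.TwoGroups
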